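import Pool.Agent.helper40.SU.SpecC

set_option autoImplicit false

/-!
# Project su (MP_c66272_nt), row PRO: most numbers of a class in a short interval are admissible
-/

namespace Pool.Agent.SU

open Finset

/-- members of a class in an interval -/
theorem PRO_cnt (N M r v : ℕ) (hr : 1 ≤ r) (hNM : N ≤ M) :
    (((Ioc N M).filter (fun n => n ≡ v [MOD r])).card : ℝ) ≤ ((M : ℝ) - N) / r + 1 := by
  have h2 := Nat.Ioc_filter_modEq_card N M hr v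
  have hrQ : (0 : ℚ) < (r : ℚ) := by exact_mod_cast hr
  have h3 : ⌊(((N : ℕ) : ℚ) - v) / (r : ℚ)⌋ ≤ ⌊(((M : ℕ) : ℚ) - v) / (r : ℚ)⌋ := by
    apply Int.floor_le_floor
    apply div_le_div_of_nonneg_right _ hrQ.le
    have : (N : ℚ) ≤ M := by exact_mod_cast hNM
    linarith
  rw [max_eq_left (by linarith)] at h2
  have h4 : (((Ioc N M).filter (fun n => n ≡ v [MOD r])).card : ℚ) =
      (⌊(((M : ℕ) : ℚ) - v) / (r : ℚ)⌋ : ℚ) - (⌊(((N : ℕ) : ℚ) - v) / (r : ℚ)⌋ : ℚ) := by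
    exact_mod_cast congrArg (fun z : ℤ => (z : ℚ)) h2
  have a1 := Int.floor_le ((((M : ℕ) : ℚ) - v) / (r : ℚ))
  have a2 := Int.lt_floor_add_one ((((N : ℕ) : ℚ) - v) / (r : ℚ))
  have h5 : (((M : ℕ) : ℚ) - v) / (r : ℚ) = (((N : ℕ) : ℚ) - v) / (r : ℚ) + ((M : ℚ) - N) / r := by
    ring
  have h6 : (((Ioc N M).filter (fun n => n ≡ v [MOD r])).card : ℚ) ≤ ((M : ℚ) - N) / r + 1 := by
    rw [h4]
    linarith
  have h7 := (Rat.cast_le (K := ℝ)).2 h6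
  push_cast at h7
  exact h7

/-- the class of `D s² + 4 w²` -/
theorem PRO_cls (q D D₀ s s₀ w w₀ : ℕ) (hD : D ≡ D₀ [MOD 64 * q]) (hs : s ≡ s₀ [MOD 32 * q])
    (hw : w ≡ w₀ [MOD 4 * q]) : D * s ^ 2 + 4 * w ^ 2 ≡ D₀ * s₀ ^ 2 + 4 * w₀ ^ 2 [MOD 32 * q] := by
  have hD' : D ≡ D₀ [MOD 32 * q] := by
    have : 32 * q ∣ 64 * q := ⟨2, by ring⟩
    exact hD.of_dvd this
  have h1 : D * s ^ 2 ≡ D₀ * s₀ ^ 2 [MOD 32 * q] := hD'.mul (hs.pow 2)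
  have h2 : 4 * w ^ 2 ≡ 4 * w₀ ^ 2 [MOD 32 * q] := by
    rw [Nat.modEq_iff_dvd] at hw ⊢
    obtain ⟨a, ha⟩ := hw
    push_cast at ha ⊢
    refine ⟨a * (w₀ : ℤ) - 2 * q * a ^ 2, ?_⟩
    have hw' : (w : ℤ) = w₀ - 4 * q * a := by linarith
    rw [hw']
    ring
  exact h1.add h2

/-- the represented numbers are in the interval, in the class and admissible -/
theorem PRO_im (hADM : ADM_stmt) (m q D₀ s₀ w₀ N : ℕ) (δ : ℝ) (hδ : 0 < δ) (hδ1 : δ ≤ 1) (hN : 1 ≤ N)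
    (S : Finset ℕ) (hS : ∀ D ∈ S, (∃ u k : ℕ, D = Df m u k) ∧ D ≡ D₀ [MOD 64 * q] ∧ 1 ≤ D) :
    ∀ n ∈ Im S q s₀ w₀ √((N : ℝ) / 5) δ, Adm n ∧ n ≡ D₀ * s₀ ^ 2 + 4 * w₀ ^ 2 [MOD 32 * q] ∧
      N < n ∧ (n : ℝ) ≤ (1 + 8 * δ / 5 + 7 * δ ^ 2 / 5) * N := by
  intro n hn
  unfold Im at hn
  rw [Finset.mem_biUnion] at hn
  obtain ⟨D, hD, hn⟩ := hn
  rw [Finset.mem_image] at hn
  obtain ⟨⟨s, w⟩, hx, hxn⟩ := hn
  rw [Finset.mem_product] at hx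
  obtain ⟨hs, hw⟩ := hx
  have hs' := (Finset.mem_filter.mp hs).2
  have hw' := (Finset.mem_filter.mp hw).2
  obtain ⟨⟨u, k, hDf⟩, hDc, hD1⟩ := hS D hD
  have hNR : (0 : ℝ) < N := by exact_mod_cast hN
  have hT2 : √((N : ℝ) / 5) ^ 2 = N / 5 := Real.sq_sqrt (by positivity)
  have hT0 : 0 < √((N : ℝ) / 5) := Real.sqrt_pos.mpr (by positivity)
  obtain ⟨T, hT⟩ : ∃ T, T = √((N : ℝ) / 5) := ⟨_, rfl⟩
  rw [← hT] at hs' hw' hT2 hT0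
  dsimp only at hs' hw' hxn
  obtain ⟨s1, s2, s3⟩ := hs'
  obtain ⟨w1, w2, w3⟩ := hw'
  have hDs : (√(D : ℝ) * s) ^ 2 = (D : ℝ) * s ^ 2 := by
    rw [mul_pow, Real.sq_sqrt (Nat.cast_nonneg D)]
  have hnR : (n : ℝ) = (D : ℝ) * s ^ 2 + 4 * w ^ 2 := by
    rw [← hxn]
    push_cast
    ring
  have a1 : T ^ 2 < (√(D : ℝ) * s) ^ 2 := pow_lt_pow_left₀ s2 hT0.le two_ne_zero
  have a2 : (√(D : ℝ) * s) ^ 2 ≤ ((1 + δ ^ 2) * T) ^ 2 :=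
    pow_le_pow_left₀ (by positivity) s3 2
  have a3 : T ^ 2 < (w : ℝ) ^ 2 := pow_lt_pow_left₀ w2 hT0.le two_ne_zero
  have a4 : (w : ℝ) ^ 2 ≤ ((1 + δ) * T) ^ 2 := pow_le_pow_left₀ (Nat.cast_nonneg w) w3 2
  rw [hDs] at a1 a2
  refine ⟨?_, ?_, ?_, ?_⟩
  · rw [← hxn, hDf]
    have := hADM m u k s (2 * w)
    have e : (2 * w) ^ 2 = 4 * w ^ 2 := by ring
    rwa [e] at this
  · rw [← hxn]
    exact PRO_cls q D D₀ s s₀ w w₀ hDc s1 w1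
  · have : (N : ℝ) < n := by
      rw [hnR]
      linarith
    exact_mod_cast this
  · rw [hnR]
    have e1 : ((1 + δ ^ 2) * T) ^ 2 = (1 + δ ^ 2) ^ 2 * (N / 5) := by rw [mul_pow, hT2]
    have e2 : ((1 + δ) * T) ^ 2 = (1 + δ) ^ 2 * (N / 5) := by rw [mul_pow, hT2]
    rw [e1] at a2
    rw [e2] at a4
    have hδ4 : δ ^ 4 ≤ δ ^ 2 := pow_le_pow_of_le_one hδ.le hδ1 (by norm_num)
    have e3 : (1 + 8 * δ / 5 + 7 * δ ^ 2 / 5) * (N : ℝ) - ((1 + δ ^ 2) ^ 2 * (N / 5) + 4 * ((1 + δ) ^ 2 * (N / 5))) =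
        (δ ^ 2 - δ ^ 4) * (N / 5) := by ring
    have e4 : 0 ≤ (δ ^ 2 - δ ^ 4) * ((N : ℝ) / 5) := mul_nonneg (by linarith) (by positivity)
    linarith

open Classical in
/-- **PRO** -/
theorem PRO (hADM : ADM_stmt) (hDCO : DCO_stmt) (hFAM : FAM_stmt) (hSEM : SEM_stmt) : PRO_stmt := by
  intro δ hδ hδ1
  obtain ⟨Z₁, hZ₁⟩ := hFAM
  obtain ⟨Z₂, hZ₂⟩ := hSEM (1 / 4 ^ 91) 40 δ (δ / 100) (by positivity) (by norm_num) hδ (by linarith)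
    (by positivity) (by linarith)
  refine ⟨max Z₁ Z₂, ?_⟩
  intro Z hZ m q u₀ k₀ hdat s₀ w₀ hw₀
  have hq1 : 1 ≤ q := hdat.q_odd.pos
  have hqR : (1 : ℝ) ≤ q := by exact_mod_cast hq1
  obtain ⟨K₀, hK₀⟩ := hZ₁ Z (le_trans (le_max_left _ _) hZ) m q u₀ k₀ hdat
  have hD8 : Df m u₀ k₀ % 8 = 3 := by
    obtain ⟨hc, hx⟩ := hDCO Z m q u₀ k₀ 1 hdat le_rfl
    have hne : (Bx q u₀ k₀ 1).Nonempty := by
      rw [← Finset.card_pos, hc]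
      norm_num
    obtain ⟨x, hxm⟩ := hne
    obtain ⟨h1, h2, _⟩ := hx x hxm
    have h3 : Df m x.1 x.2 % 8 = Df m u₀ k₀ % 8 := by
      have h4 : (8 : ℕ) ∣ 64 * q := ⟨8 * q, by ring⟩
      exact Nat.ModEq.of_dvd h4 h1
    rw [← h3]
    exact h2
  have hΓ : 1 ≤ Df m (64 * q) (64 * q) := by
    unfold Df
    have : 0 < (m ^ 2 + 1) * (64 * q) ^ 4 := by positivity
    omega
  obtain ⟨T₀, hT₀⟩ := hZ₂ Z (le_trans (le_max_right _ _) hZ) q (Df m u₀ k₀) (Df m (64 * q) (64 * q))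
    (fun D => ∃ u k : ℕ, D = Df m u k) hdat.q_odd hdat.small hD8 hdat.cop hΓ ⟨K₀, hK₀⟩ s₀ w₀ hw₀
  refine ⟨⌈5 * T₀ ^ 2⌉₊ + ⌈4 * (q : ℝ) / δ ^ 2⌉₊ + 1, ?_⟩
  intro N hN
  have hN1 : 1 ≤ N := by omega
  have hNR : (1 : ℝ) ≤ N := by exact_mod_cast hN1
  have hNa : 5 * T₀ ^ 2 ≤ N := by
    have h1 := Nat.le_ceil (5 * T₀ ^ 2)
    have h2 : ((⌈5 * T₀ ^ 2⌉₊ : ℕ) : ℝ) ≤ N := by exact_mod_cast (by omega : ⌈5 * T₀ ^ 2⌉₊ ≤ N)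
    linarith
  have hNb : 4 * (q : ℝ) / δ ^ 2 ≤ N := by
    have h1 := Nat.le_ceil (4 * (q : ℝ) / δ ^ 2)
    have h2 : ((⌈4 * (q : ℝ) / δ ^ 2⌉₊ : ℕ) : ℝ) ≤ N := by
      exact_mod_cast (by omega : ⌈4 * (q : ℝ) / δ ^ 2⌉₊ ≤ N)
    linarith
  have hT : T₀ ≤ √((N : ℝ) / 5) := by
    apply Real.le_sqrt_of_sq_le
    linarith
  obtain ⟨S, hS, hcard⟩ := hT₀ √((N : ℝ) / 5) hT
  have him := PRO_im hADM m q (Df m u₀ k₀) s₀ w₀ N δ hδ (by linarith) hN1 S hS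
  obtain ⟨M, hM⟩ : ∃ M : ℕ, M = ⌊(1 + 8 * δ / 5 + 7 * δ ^ 2 / 5) * (N : ℝ)⌋₊ := ⟨_, rfl⟩
  have hδ2 : 0 ≤ δ ^ 2 := by positivity
  have hMhi : (M : ℝ) ≤ (1 + 8 * δ / 5 + 7 * δ ^ 2 / 5) * (N : ℝ) := by
    rw [hM]
    exact Nat.floor_le (by positivity)
  have hNM : N ≤ M := by
    rw [hM]
    apply Nat.le_floor
    have : 0 ≤ (8 * δ / 5 + 7 * δ ^ 2 / 5) * (N : ℝ) := by positivity
    linarith
  obtain ⟨A, hA⟩ : ∃ A : Finset ℕ, A = (Ioc N ⌊(1 + 8 * δ / 5) * (N : ℝ)⌋₊).filter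
    (fun n => n ≡ Df m u₀ k₀ * s₀ ^ 2 + 4 * w₀ ^ 2 [MOD 32 * q] ∧ ¬ Adm n) := ⟨_, rfl⟩
  obtain ⟨C, hC⟩ : ∃ C : Finset ℕ, C = (Ioc N M).filter
    (fun n => n ≡ Df m u₀ k₀ * s₀ ^ 2 + 4 * w₀ ^ 2 [MOD 32 * q]) := ⟨_, rfl⟩
  have hAC : A ⊆ C := by
    intro n hn
    rw [hA, Finset.mem_filter, Finset.mem_Ioc] at hn
    rw [hC, Finset.mem_filter, Finset.mem_Ioc]
    refine ⟨⟨hn.1.1, hn.1.2.trans ?_⟩, hn.2.1⟩
    rw [hM]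
    apply Nat.floor_le_floor
    have : 0 ≤ 7 * δ ^ 2 / 5 * (N : ℝ) := by positivity
    linarith
  have hIC : Im S q s₀ w₀ √((N : ℝ) / 5) δ ⊆ C := by
    intro n hn
    obtain ⟨_, h2, h3, h4⟩ := him n hn
    rw [hC, Finset.mem_filter, Finset.mem_Ioc]
    refine ⟨⟨h3, ?_⟩, h2⟩
    rw [hM]
    exact Nat.le_floor h4
  have hdis : Disjoint A (Im S q s₀ w₀ √((N : ℝ) / 5) δ) := by
    rw [Finset.disjoint_left]
    intro n hn hn'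
    rw [hA, Finset.mem_filter] at hn
    exact hn.2.2 (him n hn').1
  have hsum : A.card + (Im S q s₀ w₀ √((N : ℝ) / 5) δ).card ≤ C.card := by
    rw [← Finset.card_union_of_disjoint hdis]
    exact Finset.card_le_card (Finset.union_subset hAC hIC)
  have hsumR : (A.card : ℝ) + (Im S q s₀ w₀ √((N : ℝ) / 5) δ).card ≤ C.card := by exact_mod_cast hsum
  have hCc : (C.card : ℝ) ≤ (8 * δ / 5 + 7 * δ ^ 2 / 5) * N / (32 * q) + 1 := by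
    rw [hC]
    refine (PRO_cnt N M (32 * q) _ (by omega) hNM).trans ?_
    have h1 : (M : ℝ) - N ≤ (8 * δ / 5 + 7 * δ ^ 2 / 5) * N := by linarith
    push_cast
    gcongr
  rw [Real.sq_sqrt (by positivity)] at hcard
  rw [← hA]
  have hN2 : 4 * (q : ℝ) ≤ N * δ ^ 2 := by
    rw [div_le_iff₀ (by positivity)] at hNb
    exact hNb
  have hq0 : (0 : ℝ) < 32 * q := by positivity
  have h1 : 1 ≤ 8 * δ ^ 2 * N / (32 * q) := by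
    rw [le_div_iff₀ hq0]
    linarith
  have h2 : (1 - 10 * (δ / 100)) * (δ * (N / 5) / (4 * (q : ℝ))) =
      (8 * δ / 5 - 8 * δ ^ 2 / 50) * N / (32 * q) := by
    field_simp
    ring
  rw [h2] at hcard
  have h3 : 10 * δ ^ 2 * (N : ℝ) / (32 * q) = (8 * δ / 5 + 7 * δ ^ 2 / 5) * N / (32 * q) -
      (8 * δ / 5 - 8 * δ ^ 2 / 50) * N / (32 * q) + 8 * δ ^ 2 * N / (32 * q) + 11 / 25 * δ ^ 2 * N / (32 * q) := by
    field_simp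
    ring
  have h4 : 0 ≤ 11 / 25 * δ ^ 2 * (N : ℝ) / (32 * q) := by positivity
  rw [h3]
  linarith

end Pool.Agent.SU
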